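import Mathlib

set_option autoImplicit false

/-! A Nash-Williams type dichotomy for streams chosen densely in a tree order. -/

namespace Pool.Agent.H.MP_76bd4c_lc

structure Sys (Q : Type) where
  le : Q → Q → Prop
  len : Q → ℕ
  nx : Q → Q
  rf : ∀ a, le a a
  tr : ∀ {a b c}, le a b → le b c → le a c
  mono : ∀ {a b}, le a b → len a ≤ len b
  tree : ∀ {a b c}, le a c → le b c → len a ≤ len b → le a b
  nx1 : ∀ a, le a (nx a)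
  nx2 : ∀ a, len a < len (nx a)

structure Cn (Q : Type) where
  q : Q
  L : Set Q
  po : Q → Q

variable {Q : Type} (S : Sys Q)

def D (p : Cn Q) : Prop := (∀ a, S.le p.q a → ∃ y ∈ p.L, S.le a y) ∧
  ∀ y ∈ p.L, S.le p.q y → S.le (S.nx y) (p.po y)

def Ext (p p' : Cn Q) : Prop := S.le p.q p'.q ∧
  (∀ y ∈ p'.L, S.le p'.q y → y ∈ p.L ∧ S.le (p.po y) (p'.po y)) ∧ D S p'

def up (p : Cn Q) (a : Q) : Cn Q := ⟨a, p.L, p.po⟩

def Mv (p : Cn Q) (y : Q) (p' : Cn Q) : Prop :=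
  y ∈ p.L ∧ S.le p.q y ∧ Ext S (up p (p.po y)) p'

def Sq (p : Cn Q) (T : Set Q) : Prop := T.Infinite ∧ (∀ y ∈ T, y ∈ p.L ∧ S.le p.q y) ∧
  T.Pairwise fun y z => S.le (p.po y) z ∨ S.le (p.po z) y

def Acc (W : Set Q → Prop) (E : Set Q) (p : Cn Q) : Prop := ∀ T, Sq S p T → W (E ∪ T)

def Rej (W : Set Q → Prop) (E : Set Q) (p : Cn Q) : Prop := ∀ p', Ext S p p' → ¬ Acc S W E p'

variable {S} {p p' p'' : Cn Q} {a y : Q} {W : Set Q → Prop} {E : Set Q}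

theorem long (a : Q) : ∀ n, ∃ b, S.le a b ∧ n ≤ S.len b
  | 0 => ⟨a, S.rf a, Nat.zero_le _⟩
  | n + 1 => let ⟨b, h1, h2⟩ := long a n
    ⟨S.nx b, S.tr h1 (S.nx1 b), h2.trans_lt (S.nx2 b)⟩

theorem D.up (h : D S p) (ha : S.le p.q a) : Ext S p (up p a) :=
  ⟨ha, fun _ hy _ => ⟨hy, S.rf _⟩, fun b hb => h.1 b (S.tr ha hb),
    fun y hy e => h.2 y hy (S.tr ha e)⟩

theorem D.rf (h : D S p) : Ext S p p := h.up (S.rf _)

theorem D.po (h : D S p) (hy : y ∈ p.L) (e : S.le p.q y) : S.le y (p.po y) :=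
  S.tr (S.nx1 y) (h.2 y hy e)

theorem Ext.tr (h : Ext S p p') (h' : Ext S p' p'') : Ext S p p'' :=
  ⟨S.tr h.1 h'.1, fun y hy e => let ⟨k1, k2⟩ := h'.2.1 y hy e
    let ⟨k3, k4⟩ := h.2.1 y k1 (S.tr h'.1 e); ⟨k3, S.tr k4 k2⟩, h'.2.2⟩

theorem Mv.lt (hp : D S p) (h : Mv S p y p') : S.le (S.nx y) p'.q :=
  S.tr (hp.2 y h.1 h.2.1) h.2.2.1

theorem Mv.le (hp : D S p) (h : Mv S p y p') : S.le y p'.q := S.tr (S.nx1 y) (h.lt hp)

theorem Mv.ext (hp : D S p) (h : Mv S p y p') : Ext S p p' :=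
  (hp.up (S.tr h.2.1 (hp.po h.1 h.2.1))).tr h.2.2

theorem Mv.mono (e : Ext S p p') (h : Mv S p' y p'') : Mv S p y p'' :=
  let ⟨k1, k2⟩ := e.2.1 y h.1 h.2.1
  ⟨k1, S.tr e.1 h.2.1, S.tr k2 h.2.2.1, (e.tr (h.ext e.2.2)).2⟩

theorem Acc.mono (h : Acc S W E p) (e : Ext S p p') : Acc S W E p' := fun T hT =>
  h T ⟨hT.1, fun y hy => ⟨(e.2.1 y (hT.2.1 y hy).1 (hT.2.1 y hy).2).1, S.tr e.1 (hT.2.1 y hy).2⟩,
    fun y hy z hz ne => (hT.2.2 hy hz ne).imp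
      (S.tr (e.2.1 y (hT.2.1 y hy).1 (hT.2.1 y hy).2).2)
      (S.tr (e.2.1 z (hT.2.1 z hz).1 (hT.2.1 z hz).2).2)⟩

theorem Rej.mono (h : Rej S W E p) (e : Ext S p p') : Rej S W E p' := fun _ e' => h _ (e.tr e')

theorem Acc.step (hp : D S p) (h : ∀ y ∈ p.L, Acc S W (insert y E) (up p (p.po y))) :
    Acc S W E p := fun T hT => by
  obtain ⟨y, hy, hm⟩ := (measure S.len).wf.has_min T hT.1.nonempty
  have := h y (hT.2.1 y hy).1 (T \ {y}) ⟨hT.1.diff (Set.finite_singleton y), fun z hz =>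
    ⟨(hT.2.1 z hz.1).1, (hT.2.2 hy hz.1 (Ne.symm hz.2)).resolve_right fun c => hm z hz.1
      ((S.nx2 z).trans_le (S.mono (S.tr (hp.2 z (hT.2.1 z hz.1).1 (hT.2.1 z hz.1).2) c)))⟩,
    hT.2.2.mono Set.diff_subset⟩
  rwa [Set.insert_union, ← Set.union_insert, Set.insert_diff_singleton,
    Set.insert_eq_of_mem hy] at this

theorem fuse (P : Q → Cn Q → Prop) (hp : D S p)
    (h : ∀ c, Ext S p c → ∃ y c', Mv S c y c' ∧ P y c') :
    ∃ r, Ext S p r ∧ ∀ y ∈ r.L, ∃ c, P y c ∧ Ext S c (up r (r.po y)) := by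
  classical
  obtain ⟨Z, hZ⟩ := zorn_subset {Z : Set (Q × Cn Q) | (∀ z ∈ Z, Mv S p z.1 z.2 ∧ P z.1 z.2) ∧
      ∀ z ∈ Z, ∀ z' ∈ Z, z ≠ z' → S.le z.1 z'.1 →
        S.len z.2.q ≤ S.len z'.1 ∧ (S.le z.2.q z'.1 → Mv S z.2 z'.1 z'.2)} fun c hc hch =>
    ⟨⋃₀ c, ⟨fun z ⟨s, hs, hz⟩ => (hc hs).1 z hz, fun z ⟨s, hs, hz⟩ z' ⟨s', hs', hz'⟩ => by
      rcases hch.total hs hs' with e | e
      exacts [(hc hs').2 z (e hz) z' hz', (hc hs).2 z hz z' (e hz')]⟩,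
      fun s hs => Set.subset_sUnion_of_mem hs⟩
  obtain ⟨h1, h2⟩ := hZ.prop
  have hl : ∀ z ∈ Z, S.len z.1 < S.len z.2.q := fun z hz =>
    (S.nx2 _).trans_le (S.mono ((h1 z hz).1.lt hp))
  have dn : ∀ a, S.le p.q a → ∃ z ∈ Z, S.le a z.1 := fun a ha => by
    by_contra! hn
    have hF : {z ∈ Z | S.le z.1 a}.Finite := by
      refine Set.Finite.of_finite_image (f := fun z => S.len z.1)
        ((Set.finite_Iic (S.len a)).subset ?_) fun z hz z' hz' e => ?_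
      · rintro _ ⟨z, hz, rfl⟩
        exact S.mono hz.2
      · by_contra ne
        have := (h2 z hz.1 z' hz'.1 ne (S.tree hz.2 hz'.2 e.le)).1
        have := hl z hz.1
        simp only at e
        omega
    obtain ⟨N, hN⟩ := (hF.image fun z => S.len z.2.q).bddAbove
    obtain ⟨b, hb, hb'⟩ := long (S := S) a N
    have hN' : ∀ z ∈ Z, S.le z.1 a → S.len z.2.q ≤ S.len b := fun z hz e =>
      (hN ⟨z, ⟨hz, e⟩, rfl⟩).trans hb'
    obtain ⟨c, c1, c2, c3⟩ : ∃ c, Ext S p c ∧ S.le c.q b ∧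
        ∀ z ∈ Z, S.le z.1 a → S.le z.2.q b → Ext S z.2 c := by
      by_cases hG : {z ∈ Z | S.le z.1 a ∧ S.le z.2.q b}.Nonempty
      · obtain ⟨x, hx, hm⟩ := Set.exists_max_image _ (fun z => S.len z.1)
          (hF.subset fun z hz => ⟨hz.1, hz.2.1⟩) hG
        refine ⟨x.2, (h1 x hx.1).1.ext hp, hx.2.2, fun z hz e e' => ?_⟩
        by_cases ne : z = x
        · exact ne ▸ (h1 z hz).1.2.2.2.2.rf
        · obtain ⟨k1, k2⟩ := h2 z hz x hx.1 ne (S.tree e hx.2.1 (hm z ⟨hz, e, e'⟩))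
          exact (k2 (S.tree e' (S.tr hx.2.1 hb) k1)).ext (h1 z hz).1.2.2.2.2
      · exact ⟨p, hp.rf, S.tr ha hb, fun z hz e e' => (hG ⟨z, hz, e, e'⟩).elim⟩
    have c4 := c1.2.2.up c2
    obtain ⟨y, c', m1, m2⟩ := h _ (c1.tr c4)
    have hy : S.le b y := m1.2.1
    refine hn (y, c') (hZ.mem_of_prop_insert ⟨?_, ?_⟩) (S.tr hb hy)
    · rintro z (rfl | hz)
      exacts [⟨m1.mono (c1.tr c4), m2⟩, h1 z hz]
    · rintro z (rfl | hz) z' (rfl | hz') ne e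
      · exact (ne rfl).elim
      · exact (hn z' hz' (S.tr (S.tr hb hy) e)).elim
      · have k : S.le z.1 a := S.tree e (S.tr hb hy)
          (le_of_not_ge fun c => hn z hz (S.tree (S.tr hb hy) e c))
        exact ⟨(hN' z hz k).trans (S.mono hy), fun e' =>
          m1.mono ((c3 z hz k (S.tree e' hy (hN' z hz k))).tr c4)⟩
      · exact h2 z hz z' hz' ne e
  have : Nonempty (Cn Q) := ⟨p⟩
  choose! f hf using fun (y : Q) (h : y ∈ Prod.fst '' Z) =>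
    show ∃ c, (y, c) ∈ Z from let ⟨z, k1, k2⟩ := h; ⟨z.2, k2 ▸ k1⟩
  have hd : D S ⟨p.q, Prod.fst '' Z, fun y => (f y).q⟩ :=
    ⟨fun a ha => let ⟨z, k1, k2⟩ := dn a ha; ⟨z.1, ⟨z, k1, rfl⟩, k2⟩,
      fun y hy _ => (h1 _ (hf y hy)).1.lt hp⟩
  refine ⟨⟨p.q, Prod.fst '' Z, fun y => (f y).q⟩,
    ⟨S.rf _, fun y hy _ => ⟨(h1 _ (hf y hy)).1.1, (h1 _ (hf y hy)).1.2.2.1⟩, hd⟩,
    fun y hy => ⟨f y, (h1 _ (hf y hy)).2, S.rf _, fun z hz e => ?_,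
      (hd.up ((h1 _ (hf y hy)).1.ext hp).1).2.2⟩⟩
  have := (h2 _ (hf y hy) _ (hf z hz) (fun c => by
    have k1 := hl _ (hf y hy)
    have k2 := S.mono e
    obtain rfl : y = z := congrArg Prod.fst c
    exact k1.not_ge k2) (S.tr ((h1 _ (hf y hy)).1.le hp) e)).2 e
  exact ⟨this.1, this.2.2.1⟩

theorem avoid {F : Set ((Set Q → Prop) × Set Q)} (hF : F.Finite) : ∀ p, D S p →
    (∀ b ∈ F, Rej S b.1 b.2 p) →
    ∃ r, Ext S p r ∧ ∀ y c, Mv S r y c → ∀ b ∈ F, ¬ Acc S b.1 (insert y b.2) c := by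
  induction F, hF using Set.Finite.induction_on with
  | empty => exact fun p hp _ => ⟨p, hp.rf, fun _ _ _ _ h => h.elim⟩
  | @insert b F _ _ ih =>
    intro p hp h
    obtain ⟨r, r1, r2⟩ : ∃ r, Ext S p r ∧ ∀ y c, Mv S r y c → ¬ Acc S b.1 (insert y b.2) c := by
      by_contra! hn
      obtain ⟨r, r1, r2⟩ := fuse (fun y c => Acc S b.1 (insert y b.2) c) hp hn
      exact h b (.inl rfl) r r1 (.step r1.2.2 fun y hy => let ⟨_, k1, k2⟩ := r2 y hy; k1.mono k2)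
    obtain ⟨r', k1, k2⟩ := ih r r1.2.2 fun b hb => (h b (.inr hb)).mono r1
    refine ⟨r', r1.tr k1, fun y c m => ?_⟩
    rintro _ (rfl | hb)
    exacts [r2 y c (m.mono k1), k2 y c m _ hb]

theorem decides {F : Set (Set Q → Prop)} (hF : F.Finite) (hp : D S p) :
    ∃ r, Ext S p r ∧ ∀ W ∈ F, Acc S W ∅ r ∨ Rej S W ∅ r := by
  induction F, hF using Set.Finite.induction_on with
  | empty => exact ⟨p, hp.rf, fun _ h => h.elim⟩
  | @insert W F _ _ ih =>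
    obtain ⟨r, r1, r2⟩ := ih
    by_cases c : Rej S W ∅ r
    · exact ⟨r, r1, Set.forall_mem_insert.2 ⟨.inr c, r2⟩⟩
    · simp only [Rej, not_forall, not_not] at c
      obtain ⟨r', k1, k2⟩ := c
      exact ⟨r', r1.tr k1, Set.forall_mem_insert.2 ⟨.inl k2, fun W hW =>
        (r2 W hW).imp (·.mono k1) (·.mono k1)⟩⟩

variable (S) in
def Good (p0 : Cn Q) (R : Set (Set Q → Prop)) (p : Cn Q) (Y : Set Q) : Prop :=
  Ext S p0 p ∧ Y.Finite ∧ (∀ y ∈ Y, y ∈ p0.L ∧ S.le p0.q y ∧ S.le (p0.po y) p.q ∧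
    S.le (S.nx y) p.q) ∧ (Y.Pairwise fun y z => S.le (p0.po y) z ∨ S.le (p0.po z) y) ∧
    ∀ W ∈ R, ∀ E ⊆ Y, Rej S W E p

theorem Good.step {R : Set (Set Q → Prop)} {Y : Set Q} (hR : R.Finite) (h : Good S p R p' Y)
    (ha : S.le p'.q a) : ∃ y c, S.le a y ∧ S.le a c.q ∧ Good S p R c (insert y Y) := by
  obtain ⟨h1, h2, h3, h4, h5⟩ := h
  have e := h1.2.2.up ha
  obtain ⟨r, r1, r2⟩ := avoid (hR.prod h2.finite_subsets) _ e.2.2
    fun b hb => (h5 _ hb.1 _ hb.2).mono e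
  obtain ⟨y, y1, y2⟩ := r1.2.2.1 _ (S.rf _)
  have e' := r1.2.2.up (S.tr y2 (r1.2.2.po y1 y2))
  have m : Mv S r y (up r (r.po y)) := ⟨y1, y2, e'.2.2.rf⟩
  have m' := m.mono ((h1.tr e).tr r1)
  have k := (e.tr r1).tr e'
  refine ⟨y, _, S.tr r1.1 y2, S.tr r1.1 e'.1, h1.tr k, h2.insert y, ?_, ?_, fun W hW E hE => ?_⟩
  · rintro z (rfl | hz)
    · exact ⟨m'.1, m'.2.1, m'.2.2.1, m.lt r1.2.2⟩
    · exact ⟨(h3 z hz).1, (h3 z hz).2.1, S.tr (h3 z hz).2.2.1 k.1, S.tr (h3 z hz).2.2.2 k.1⟩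
  · exact h4.insert fun z hz _ =>
      have := S.tr (h3 z hz).2.2.1 (S.tr (e.tr r1).1 y2)
      ⟨.inr this, .inl this⟩
  · by_cases c : y ∈ E
    · intro c' e'' hc
      refine r2 y c' ⟨y1, y2, e''⟩ (W, E \ {y}) ⟨hW, fun z hz => (hE hz.1).resolve_left hz.2⟩ ?_
      rwa [Set.insert_diff_singleton, Set.insert_eq_of_mem c]
    · exact (h5 W hW E fun z hz => (hE hz).resolve_left fun k => c (k ▸ hz)).mono k

theorem limit {R : Set (Set Q → Prop)} {c : ℕ → Cn Q} {Y : ℕ → Set Q}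
    (h : ∀ n, Good S p R (c n) (Y n)) (h1 : ∀ n, Y n ⊆ Y (n + 1))
    (h2 : ∀ n, S.len (c n).q ≤ S.len (c (n + 1)).q)
    (h3 : ∀ n, ∀ y ∈ Y (n + 1), y ∈ Y n ∨ S.len (c n).q ≤ S.len y)
    (h4 : ∀ m, ∃ n, ∃ y ∈ Y n, m ≤ S.len y) {T : Set Q} (hT : T.Infinite) (e : T ⊆ ⋃ n, Y n) :
    Sq S p T ∧ ∀ W ∈ R, ∀ u,
      ¬ ∀ T', (∀ y, S.len y < u → (y ∈ T ↔ y ∈ T')) → W T' := by
  have hm : Monotone Y := monotone_nat_of_le_succ h1
  have hm' : Monotone fun n => S.len (c n).q := monotone_nat_of_le_succ h2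
  refine ⟨⟨hT, fun y hy => ?_, fun y hy z hz ne => ?_⟩, fun W hW u hu => ?_⟩
  · obtain ⟨n, hn⟩ := Set.mem_iUnion.1 (e hy)
    exact ⟨((h n).2.2.1 y hn).1, ((h n).2.2.1 y hn).2.1⟩
  · obtain ⟨n, hn⟩ := Set.mem_iUnion.1 (e hy)
    obtain ⟨m, hm'⟩ := Set.mem_iUnion.1 (e hz)
    exact (h (max n m)).2.2.2.1 (hm (le_max_left _ _) hn) (hm (le_max_right _ _) hm') ne
  · obtain ⟨n, y, y1, y2⟩ := h4 u
    have k : u ≤ S.len (c n).q :=
      y2.trans (S.mono (S.tr (S.nx1 y) ((h n).2.2.1 y y1).2.2.2))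
    have k' : ∀ m, ∀ z ∈ Y m, S.len z < u → z ∈ Y n := fun m => by
      induction m with
      | zero => exact fun z hz _ => hm n.zero_le hz
      | succ m ih =>
        intro z hz l
        by_cases c : m < n
        · exact hm c hz
        · exact ih z ((h3 m z hz).resolve_right
            (l.trans_le (k.trans (hm' (not_lt.1 c)))).not_ge) l
    refine (h n).2.2.2.2 W hW {z ∈ T | S.len z < u} (fun z hz => ?_) _ (h n).1.2.2.rf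
      fun T' hT' => hu _ fun z l => ⟨fun hz => .inl ⟨hz, l⟩, fun hz => hz.elim (·.1) fun hz =>
        ((l.trans_le k).not_ge (S.mono (hT'.2.1 z hz).2)).elim⟩
    obtain ⟨m, hm⟩ := Set.mem_iUnion.1 (e hz.1)
    exact k' m z hm hz.2

end Pool.Agent.H.MP_76bd4c_lc
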