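import Pool.Agent.H.MP_76bd4c_lc.A
import Pool.Agent.Lib.helper21.Jump

set_option autoImplicit false

/-! Self-describing sets that defeat every finite family of uniform reductions. -/

namespace Pool.Agent.H.MP_76bd4c_lc

open Pool.Agent.Lib.helper21.Fn Function

def fits (X : Om) (x : ℕ) : Prop := tb x.unpair.2 (cd X x.unpair.1) = true

def ok (x : ℕ) : Prop := x.unpair.2 < 2 ^ 2 ^ x.unpair.1 ∧ ∃ w, ∃ F : ℕ → Om,
  (∀ X, fits X x → ∃ j < w, ∀ i < x.unpair.1, X i = F j i) ∧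
  ∀ X X', fits X x → fits X' x → ∀ i < w, X i = X' i

def Lg (X : Om) : Prop := ∀ x, X x = true → ok x ∧ fits X x

variable {X X' : Om} {x n w : ℕ} {F : ℕ → Om}

theorem fits.congr (h : fits X x) (e : ∀ i < x, X i = X' i) : fits X' x := by
  rwa [fits, ← cd_congr fun i hi => e i (hi.trans_le (Nat.unpair_left_le x))]

def code (w n : ℕ) (F : ℕ → Om) : ℕ :=
  Nat.pair n (cd (fun m => decide (∃ j < w, m = cd (F j) n)) (2 ^ n))

theorem fits_code : fits X (code w n F) ↔ ∃ j < w, ∀ i < n, X i = F j i := by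
  rw [fits, code, Nat.unpair_pair, tb_cd _ _ _ (cd_lt X n), decide_eq_true_iff]
  exact exists_congr fun j => and_congr_right fun _ =>
    ⟨fun h i hi => by rw [← tb_cd X n i hi, h, tb_cd _ n i hi], cd_congr⟩

theorem le_code : n ≤ code w n F := Nat.left_le_pair _ _

theorem code_fst : (code w n F).unpair.1 = n := by rw [code, Nat.unpair_pair]

theorem ok_code (hw : w ≤ n) (h : ∀ j < w, ∀ i < w, F j i = F 0 i) : ok (code w n F) := by
  refine ⟨by rw [code, Nat.unpair_pair]; exact cd_lt _ _, w, F, fun X hX => ?_,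
    fun X X' h1 h2 i hi => ?_⟩
  · rw [code_fst]; exact fits_code.1 hX
  · obtain ⟨j, j1, j2⟩ := fits_code.1 h1
    obtain ⟨l, l1, l2⟩ := fits_code.1 h2
    rw [j2 i (hi.trans_le hw), l2 i (hi.trans_le hw), h j j1 i hi, h l l1 i hi]

def Stem (n : ℕ) (X : Om) : Prop := Lg X ∧ ∀ i, n ≤ i → X i = false

theorem Stem.mono {m : ℕ} (h : Stem n X) (e : n ≤ m) : Stem m X :=
  ⟨h.1, fun i hi => h.2 i (e.trans hi)⟩

theorem Stem.add (h : Stem n X) (e : n ≤ x) (h1 : ok x) (h2 : fits X x) :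
    Stem (x + 1) (update X x true) := by
  refine ⟨fun z hz => ?_, fun i hi => by rw [update_of_ne (by omega), h.2 i (by omega)]⟩
  by_cases c : z = x
  · subst c; exact ⟨h1, h2.congr fun i hi => (update_of_ne hi.ne _ _).symm⟩
  · rw [update_of_ne c] at hz
    have : z < n := lt_of_not_ge fun k => by simp [h.2 z k] at hz
    exact ⟨(h.1 z hz).1, (h.1 z hz).2.congr fun i hi => (update_of_ne (by omega) _ _).symm⟩

def Qw (w : ℕ) : Type := {q : ℕ × (ℕ → Om) //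
  w ≤ q.1 ∧ ∀ j < w, Stem q.1 (q.2 j) ∧ ∀ i < w, q.2 j i = q.2 0 i}

def cq (a : Qw w) : ℕ := code w a.1.1 a.1.2

def sys (w : ℕ) : Sys (Qw w) where
  le a b := a.1.1 ≤ b.1.1 ∧ ∀ j < w, ∀ i < a.1.1, a.1.2 j i = b.1.2 j i
  len a := a.1.1
  nx a := ⟨(cq a + 1, fun j => update (a.1.2 j) (cq a) true),
    a.2.1.trans (le_code.trans (Nat.le_succ _)), fun j hj =>
      ⟨(a.2.2 j hj).1.add le_code (ok_code a.2.1 fun j hj => (a.2.2 j hj).2)
        (fits_code.2 ⟨j, hj, fun _ _ => rfl⟩), fun i hi => by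
          have : i ≠ cq a := (hi.trans_le (a.2.1.trans le_code)).ne
          simp only [update_of_ne this, (a.2.2 j hj).2 i hi]⟩⟩
  rf a := ⟨le_rfl, fun _ _ _ _ => rfl⟩
  tr h h' := ⟨h.1.trans h'.1, fun j hj i hi =>
    (h.2 j hj i hi).trans (h'.2 j hj i (hi.trans_le h.1))⟩
  mono h := h.1
  tree h h' e := ⟨e, fun j hj i hi => (h.2 j hj i hi).trans (h'.2 j hj i (hi.trans_le e)).symm⟩
  nx1 a := ⟨le_code.trans (Nat.le_succ _), fun j _ i hi =>
    (update_of_ne (hi.trans_le le_code).ne _ _).symm⟩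
  nx2 a := Nat.lt_succ_of_le le_code

def Tm : Type := {t : ℕ × Om // Stem t.1 t.2}

def tle (t t' : Tm) : Prop := t.1.1 ≤ t'.1.1 ∧ ∀ i < t.1.1, t.1.2 i = t'.1.2 i

def Req (k : ℕ) (W : ℕ → ℕ → Set ℕ → Prop) (A : Om) : Prop := {x | A x = true}.Infinite ∧
  ∀ B : ℕ → Set ℕ, (∀ x, A x = true → ∃ i < k, x ∈ B i) →
    ¬ ∀ i < k, ∀ C ⊆ B i, C.Infinite → ∀ x, (W i x C ↔ A x = true)

def Strat (P : Om → Prop) : Prop :=
  ∃ (St : Type) (I : St → Tm → Prop) (R : St → St → Prop) (G : ℕ → St → Prop), (∀ s, R s s) ∧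
    (∀ s t t', I s t → tle t t' → I s t') ∧ (∀ t, ∃ s t', tle t t' ∧ I s t') ∧
    (∀ m s t, I s t → ∃ s' t', tle t t' ∧ I s' t' ∧ R s s' ∧ G m s') ∧
    ∀ (A : Om) (s : ℕ → St), (∀ n, ∃ t, I (s n) t ∧ ∀ i < t.1.1, A i = t.1.2 i) →
      (∀ n, R (s n) (s (n + 1))) → (∀ m, ∃ n, G m (s n)) → P A

theorem tle.tr {a b c : Tm} (h : tle a b) (h' : tle b c) : tle a c :=
  ⟨h.1.trans h'.1, fun i hi => (h.2 i hi).trans (h'.2 i (hi.trans_le h.1))⟩

theorem bm (P : ℕ → Om → Prop) (h : ∀ r, Strat (P r)) : ∃ A, Lg A ∧ ∀ r, P r A := by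
  classical
  choose St I R G h1 h2 h3 h4 h5 using h
  have key : ∀ n (g : Tm × ∀ r, St r), ∃ g' : Tm × ∀ r, St r, (∀ r < n, I r (g.2 r) g.1) →
      tle g.1 g'.1 ∧ (∀ r < n + 1, I r (g'.2 r) g'.1) ∧ (∀ r < n, R r (g.2 r) (g'.2 r)) ∧
        G _ n.unpair.2 (g'.2 n.unpair.1) := fun n g => by
    by_cases hg : ∀ r < n, I r (g.2 r) g.1
    swap
    · exact ⟨g, fun c => (hg c).elim⟩
    obtain ⟨s, t, k1, k2⟩ := h3 n g.1
    have k3 : ∀ r < n + 1, I r (update g.2 n s r) t := fun r hr => by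
      by_cases c : r = n
      · subst c; rwa [update_self]
      · rw [update_of_ne c]; exact h2 _ _ _ _ (hg r (by omega)) k1
    obtain ⟨s', t', l1, l2, l3, l4⟩ := h4 _ n.unpair.2 _ t
      (k3 _ (Nat.lt_succ_of_le n.unpair_left_le))
    refine ⟨(t', update (update g.2 n s) _ s'), fun _ => ⟨k1.tr l1, fun r hr => ?_,
      fun r hr => ?_, by simpa using l4⟩⟩
    · by_cases c : r = n.unpair.1
      · subst c; simpa using l2
      · simp only [update_of_ne c]; exact h2 _ _ _ _ (k3 r hr) l1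
    · by_cases c : r = n.unpair.1
      · subst c; simpa [update_of_ne hr.ne] using l3
      · simp only [update_of_ne c, update_of_ne hr.ne]; exact h1 _ _
  choose f hf using key
  let t0 : Tm := ⟨(0, fun _ => false), fun _ h => by simp at h, fun _ _ => rfl⟩
  let g : ℕ → Tm × ∀ r, St r := fun n => n.rec (t0, fun r => (h3 r t0).choose) f
  have g1 : ∀ n, ∀ r < n, I r ((g n).2 r) (g n).1 := fun n => by
    induction n with
    | zero => exact fun r h => by omega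
    | succ n ih => exact (hf n _ ih).2.1
  have g2 : ∀ m n, m ≤ n → tle (g m).1 (g n).1 := fun m n h => by
    induction h with
    | refl => exact ⟨le_rfl, fun _ _ => rfl⟩
    | step _ ih => exact ih.tr (hf _ _ (g1 _)).1
  let A : Om := fun i => decide (∃ n, (g n).1.1.2 i = true)
  have lt : ∀ n i, (g n).1.1.2 i = true → i < (g n).1.1.1 := fun n i h =>
    lt_of_not_ge fun k => by simp [(g n).1.2.2 i k] at h
  have hA : ∀ n, ∀ i < (g n).1.1.1, A i = (g n).1.1.2 i := fun n i hi => by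
    rw [Bool.eq_iff_iff, decide_eq_true_iff]
    refine ⟨fun ⟨m, hm⟩ => ?_, fun h => ⟨n, h⟩⟩
    rcases le_total m n with c | c
    · rwa [← (g2 m n c).2 i (lt m i hm)]
    · rwa [(g2 n m c).2 i hi]
  refine ⟨A, fun x hx => ?_, fun r => h5 r A (fun n => (g (r + 1 + n)).2 r)
    (fun n => ⟨_, g1 _ r (by omega), hA _⟩) (fun n => (hf _ _ (g1 _)).2.2.1 r (by omega))
    fun m => ?_⟩
  · obtain ⟨n, hn⟩ := of_decide_eq_true hx
    have := (g n).1.2.1 x hn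
    exact ⟨this.1, this.2.congr fun i hi => (hA n i (hi.trans (lt n x hn))).symm⟩
  · have := (hf (Nat.pair r m) _ (g1 _)).2.2.2
    rw [Nat.unpair_pair] at this
    refine ⟨Nat.pair r m - r, ?_⟩
    rwa [show r + 1 + (Nat.pair r m - r) = Nat.pair r m + 1 by
      have := Nat.left_le_pair r m; omega]

structure Fx (w : ℕ) where
  a : ℕ → ℕ
  j : ℕ
  p : Cn (Qw w)

section
variable {k : ℕ} (W : ℕ → ℕ → Set ℕ → Prop)

def U (i x : ℕ) (T : Set (Qw w)) : Prop := W i x (cq '' T)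

def Rf (d : Fx (k + 1)) : Set (Set (Qw (k + 1)) → Prop) :=
  {V | ∃ i < k, ∃ j < k + 1, V = U W i (d.a j) ∧ ¬ Acc (sys _) V ∅ d.p}

theorem fam_fin (a : ℕ → ℕ) : {V : Set (Qw (k + 1)) → Prop | ∃ i < k, ∃ j < k + 1,
    V = U W i (a j)}.Finite :=
  (((Set.finite_Iio k).prod (Set.finite_Iio (k + 1))).image fun z => U W z.1 (a z.2)).subset
    fun _ ⟨i, hi, j, hj, e⟩ => ⟨(i, j), ⟨hi, hj⟩, e.symm⟩

def Iv (s : Fx (k + 1) × Cn (Qw (k + 1)) × Set (Qw (k + 1))) (t : Tm) : Prop :=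
  s.1.j < k + 1 ∧ Good (sys _) s.1.p (Rf W s.1) s.2.1 s.2.2 ∧
    (s.2.1.q.1.1 ≤ t.1.1 ∧ ∀ i < s.2.1.q.1.1, s.2.1.q.1.2 s.1.j i = t.1.2 i) ∧
    (∀ j < k + 1, s.1.a j < t.1.1 ∧ (t.1.2 (s.1.a j) = true ↔ j = s.1.j)) ∧
    ∀ i < k, ¬ (Acc (sys _) (U W i (s.1.a s.1.j)) ∅ s.1.p ∧
      ∀ j < k + 1, j ≠ s.1.j → ¬ Acc (sys _) (U W i (s.1.a j)) ∅ s.1.p)

theorem init (t : Tm) : ∃ s t', tle t t' ∧ Iv (k := k) W s t' := by
  obtain ⟨⟨n, X⟩, ht⟩ := t
  change Stem n X at ht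
  let a : ℕ → ℕ := fun j => code 1 (n + k + 1 + j) fun _ => X
  have a1 : ∀ j, n + k + 1 + j ≤ a j := fun j => le_code
  have a2 : Injective a := fun i j e => by
    have := congrArg (fun x : ℕ => x.unpair.1) e
    simpa [a, code_fst] using this
  obtain ⟨N, hN⟩ := ((Set.finite_Iio (k + 1)).image a).bddAbove
  have a3 : ∀ j < k + 1, a j ≤ N := fun j hj => hN ⟨j, hj, rfl⟩
  have a4 : ∀ j, ∀ i < n + k + 1, update X (a j) true i = X i := fun j i hi =>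
    update_of_ne (by have := a1 j; omega) _ _
  let q : Qw (k + 1) := ⟨(N + 1, fun j => update X (a j) true),
    by have := a1 0; have := a3 0 k.succ_pos; simp only; omega, fun j hj =>
      ⟨(ht.add (x := a j) (by have := a1 j; omega) (ok_code (by omega) (by simp))
        (fits_code.2 ⟨0, one_pos, fun _ _ => rfl⟩)).mono (Nat.succ_le_succ (a3 j hj)),
        fun i hi => (a4 j i (by omega)).trans (a4 0 i (by omega)).symm⟩⟩
  obtain ⟨r, r1, r2⟩ := decides (S := sys _) (p := ⟨q, Set.univ, (sys _).nx⟩) (fam_fin W a)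
    ⟨fun b _ => ⟨b, trivial, (sys _).rf _⟩, fun _ _ _ => (sys _).rf _⟩
  obtain ⟨j, j1, j2⟩ : ∃ j < k + 1, ∀ i < k, ¬ (Acc (sys _) (U W i (a j)) ∅ r ∧
      ∀ l < k + 1, l ≠ j → ¬ Acc (sys _) (U W i (a l)) ∅ r) := by
    by_contra! hn
    choose! f f1 f2 f3 using hn
    obtain ⟨x, x1, y, y1, ne, e⟩ := Finset.exists_ne_map_eq_of_card_lt_of_maps_to
      (s := Finset.range (k + 1)) (t := Finset.range k) (f := f) (by simp)
      fun x hx => by simpa using f1 x (by simpa using hx)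
    rw [Finset.mem_range] at x1 y1
    exact f3 y y1 x x1 ne (e ▸ f2 x x1)
  have r3 : N + 1 ≤ r.q.1.1 := r1.1.1
  have r4 : ∀ i < N + 1, update X (a j) true i = r.q.1.2 j i := r1.1.2 j j1
  have := a1 0
  have := a3 0 k.succ_pos
  refine ⟨(⟨a, j, r⟩, r, ∅), ⟨(r.q.1.1, r.q.1.2 j), (r.q.2.2 j j1).1⟩,
    ⟨show n ≤ r.q.1.1 by omega, fun i (hi : i < n) =>
      (a4 j i (by omega)).symm.trans (r4 i (by omega))⟩, j1,
    ⟨r1.2.2.rf, Set.finite_empty, fun _ h => h.elim, Set.pairwise_empty _, ?_⟩,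
    ⟨le_rfl, fun _ _ => rfl⟩, fun l hl => ⟨(Nat.lt_succ_of_le (a3 l hl)).trans_le r3, ?_⟩, j2⟩
  · rintro V ⟨i, hi, l, hl, e, c⟩ E hE
    rw [Set.subset_empty_iff.1 hE]
    exact (r2 V ⟨i, hi, l, hl, e⟩).resolve_left c
  · show r.q.1.2 j (a l) = true ↔ l = j
    rw [← r4 _ (Nat.lt_succ_of_le (a3 l hl))]
    by_cases c : l = j
    · simp [c]
    · rw [update_of_ne (a2.ne c), ht.2 (a l) (by have := a1 l; omega)]
      simp [c]

theorem Iv.mono {s : Fx (k + 1) × Cn (Qw (k + 1)) × Set (Qw (k + 1))} {t t' : Tm}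
    (h : Iv W s t) (e : tle t t') : Iv W s t' :=
  ⟨h.1, h.2.1, ⟨h.2.2.1.1.trans e.1, fun i hi =>
    (h.2.2.1.2 i hi).trans (e.2 i (hi.trans_le h.2.2.1.1))⟩, fun j hj =>
      ⟨(h.2.2.2.1 j hj).1.trans_le e.1, e.2 _ (h.2.2.2.1 j hj).1 ▸ (h.2.2.2.1 j hj).2⟩, h.2.2.2.2⟩

theorem strat (hW : ∀ i x C, W i x C → ∃ u, ∀ C', (∀ z < u, (z ∈ C ↔ z ∈ C')) → W i x C') :
    Strat (Req k W) := by
  refine ⟨_, Iv (k := k) W, fun s s' => s'.1 = s.1 ∧ s.2.2 ⊆ s'.2.2 ∧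
    s.2.1.q.1.1 ≤ s'.2.1.q.1.1 ∧ ∀ y ∈ s'.2.2, y ∈ s.2.2 ∨ s.2.1.q.1.1 ≤ y.1.1,
    fun m s => ∃ y ∈ s.2.2, m ≤ y.1.1, fun s => ⟨rfl, le_rfl, le_rfl, fun _ => .inl⟩,
    fun s t t' => Iv.mono W, init W, fun m ⟨d, p, Y⟩ t h => ?_, fun A s h1 h2 h3 => ?_⟩
  · obtain ⟨h1, h2, ⟨h3, h4⟩, h5, h6⟩ := h
    simp only at h1 h2 h3 h4 h5 h6
    have e : ∀ l, ∀ i < p.q.1.1, update p.q.1.2 d.j t.1.2 l i = p.q.1.2 l i := fun l i hi => by
      by_cases c : l = d.j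
      · rw [c, update_self, h4 i hi]
      · rw [update_of_ne c]
    let b : Qw (k + 1) := ⟨(t.1.1 + m, update p.q.1.2 d.j t.1.2),
      p.q.2.1.trans (h3.trans (Nat.le_add_right _ _)), fun l hl => ⟨by
        by_cases c : l = d.j
        · simp only [c, update_self]; exact t.2.mono (Nat.le_add_right _ _)
        · simp only [update_of_ne c]
          exact (p.q.2.2 l hl).1.mono (h3.trans (Nat.le_add_right _ _)), fun i hi => by
        have := hi.trans_le p.q.2.1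
        simp only [e _ i this, (p.q.2.2 l hl).2 i hi]⟩⟩
    obtain ⟨y, c, k1, k2, k3⟩ := h2.step ((fam_fin W d.a).subset
      (by rintro _ ⟨i, hi, l, hl, e, _⟩; exact ⟨i, hi, l, hl, e⟩)) (a := b)
      ⟨h3.trans (Nat.le_add_right _ _), fun l _ i hi => (e l i hi).symm⟩
    have k4 : t.1.1 + m ≤ y.1.1 := k1.1
    have k5 : t.1.1 + m ≤ c.q.1.1 := k2.1
    have k6 : tle t ⟨(c.q.1.1, c.q.1.2 d.j), (c.q.2.2 _ h1).1⟩ :=
      ⟨show _ ≤ c.q.1.1 by omega, fun i hi => by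
        simpa [b] using k2.2 d.j h1 i (hi.trans_le (Nat.le_add_right _ _))⟩
    refine ⟨(d, c, insert y Y), _, k6, ⟨h1, k3, ⟨le_rfl, fun _ _ => rfl⟩, fun l hl =>
      ⟨(h5 l hl).1.trans_le k6.1, k6.2 _ (h5 l hl).1 ▸ (h5 l hl).2⟩, h6⟩,
      ⟨rfl, Set.subset_insert _ _, show p.q.1.1 ≤ c.q.1.1 by omega, ?_⟩, y, .inl rfl, by omega⟩
    rintro z (rfl | hz)
    exacts [.inr (show p.q.1.1 ≤ _ by omega), .inl hz]
  · choose t t1 t2 using h1
    have e : ∀ n, (s n).1 = (s 0).1 := fun n => by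
      induction n with
      | zero => rfl
      | succ n ih => exact (h2 n).1.trans ih
    have g : ∀ n, Good (sys _) (s 0).1.p (Rf W (s 0).1) (s n).2.1 (s n).2.2 := fun n =>
      e n ▸ (t1 n).2.1
    have sub : cq '' (⋃ n, (s n).2.2) ⊆ {x | A x = true} := by
      rintro _ ⟨y, hy, rfl⟩
      obtain ⟨n, hn⟩ := Set.mem_iUnion.1 hy
      have k := ((g n).2.2.1 y hn).2.2.2
      have k1 : cq y < (s n).2.1.q.1.1 := k.1
      show A _ = true
      rw [t2 n _ (k1.trans_le (t1 n).2.2.1.1), ← (t1 n).2.2.1.2 _ k1,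
        ← k.2 _ (t1 n).1 _ (Nat.lt_succ_self _)]
      exact update_self ..
    have inf : (cq '' (⋃ n, (s n).2.2)).Infinite := Set.infinite_of_forall_exists_gt fun m =>
      let ⟨n, y, y1, y2⟩ := h3 (m + 1)
      ⟨_, ⟨y, Set.mem_iUnion.2 ⟨n, y1⟩, rfl⟩, y2.trans le_code⟩
    refine ⟨inf.mono sub, fun B hB hc => ?_⟩
    obtain ⟨i, hi, hC⟩ : ∃ i < k, (cq '' {y ∈ ⋃ n, (s n).2.2 | cq y ∈ B i}).Infinite := by
      by_contra! hn
      refine inf (((Set.finite_Iio k).biUnion fun i hi => hn i hi).subset ?_)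
      rintro _ ⟨y, hy, rfl⟩
      obtain ⟨i, hi, k⟩ := hB _ (sub ⟨y, hy, rfl⟩)
      exact Set.mem_biUnion hi ⟨y, ⟨hy, k⟩, rfl⟩
    have hc' := hc i hi _ (by rintro _ ⟨y, hy, rfl⟩; exact hy.2) hC
    obtain ⟨l1, l2⟩ := limit g (fun n => (h2 n).2.1) (fun n => (h2 n).2.2.1)
      (fun n => (h2 n).2.2.2) h3 (hC.of_image _) fun y hy => hy.1
    obtain ⟨j1, -, -, j2, j3⟩ := t1 0
    refine j3 i hi ⟨by_contra fun c => ?_, fun l hl ne c => ne ((j2 l hl).2.1 ?_)⟩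
    · obtain ⟨u, hu⟩ := hW _ _ _ ((hc' _).2 ((t2 0 _ (j2 _ j1).1).trans ((j2 _ j1).2.2 rfl)))
      refine l2 _ ⟨i, hi, _, j1, rfl, c⟩ u fun T hT => hu _ fun z hz => ⟨?_, ?_⟩
      all_goals rintro ⟨y, hy, rfl⟩
      exacts [⟨y, (hT y (le_code.trans_lt hz)).1 hy, rfl⟩,
        ⟨y, (hT y (le_code.trans_lt hz)).2 hy, rfl⟩]
    · have := c _ l1
      rw [Set.empty_union] at this
      rw [← t2 0 _ (j2 l hl).1]
      exact (hc' _).1 this

end

theorem core {ι : Type} [Countable ι] (W : ι → ℕ → Set ℕ → Prop)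
    (hW : ∀ i x C, W i x C → ∃ u, ∀ C', (∀ z < u, (z ∈ C ↔ z ∈ C')) → W i x C') :
    ∃ A, Lg A ∧ {x | A x = true}.Infinite ∧ ∀ k (B : ℕ → Set ℕ),
      (∀ x, A x = true → ∃ i < k, x ∈ B i) →
        ¬ ∀ i < k, ∃ e, ∀ C ⊆ B i, C.Infinite → ∀ x, (W e x C ↔ A x = true) := by
  obtain ⟨f, hf⟩ := exists_surjective_nat (List (Option ι))
  obtain ⟨A, h1, h2⟩ := bm _ fun r => strat (k := (f r).length)
    (fun i x C => ∃ e, (f r).getD i none = some e ∧ W e x C) fun i x C ⟨e, e1, e2⟩ =>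
      (hW e x C e2).imp fun u hu C' h => ⟨e, e1, hu C' h⟩
  refine ⟨A, h1, (h2 0).1, fun k B hB h => ?_⟩
  choose e he using h
  obtain ⟨r, hr⟩ := hf (List.ofFn fun i : Fin k => some (e i i.2))
  have := (h2 r).2 B
  rw [hr, List.length_ofFn] at this
  refine this hB fun i hi C hC inf x => ?_
  rw [← he i hi C hC inf x]
  simp [hi]

end Pool.Agent.H.MP_76bd4c_lc
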