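import Pool.Agent.H.MP_76bd4c_lc.B

set_option autoImplicit false

/-! Every infinite subset of a self-describing set enumerates its characteristic function. -/

namespace Pool.Agent.H.MP_76bd4c_lc

open Pool.Agent.Lib.helper21 Fn PR

attribute [local irreducible] Primrec Computable

theorem sep {s : Set Om} (h : s.Finite) :
    ∃ n, ∀ X ∈ s, ∀ X' ∈ s, (∀ i < n, X i = X' i) → X = X' := by
  choose! d hd using fun (z : Om × Om) (c : z.1 ≠ z.2) => Function.ne_iff.1 c
  obtain ⟨n, hn⟩ := ((h.prod h).image d).bddAbove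
  exact ⟨n + 1, fun X hX X' hX' e => by_contra fun c => hd (X, X') c
    (e _ (Nat.lt_succ_of_le (hn ⟨(X, X'), ⟨hX, hX'⟩, rfl⟩)))⟩

variable {A : ℕ → Bool} {C : Set ℕ}

theorem few (hA : Lg A) (hC : ∀ x ∈ C, A x = true) (inf : C.Infinite) :
    {X | ∀ x ∈ C, fits X x}.Finite := by
  classical
  choose! w F h1 h2 using fun x (hx : x ∈ C) => (hA x (hC x hx)).1.2
  by_cases c : ∀ k, ∃ x ∈ C, k < w x
  · refine (Set.finite_singleton A).subset fun X hX => funext fun i => ?_
    obtain ⟨x, x1, x2⟩ := c i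
    exact h2 x x1 X A (hX x x1) (hA x (hC x x1)).2 i x2
  push Not at c
  obtain ⟨k, hk⟩ := c
  by_contra c
  obtain ⟨t, t1, t2⟩ := Set.Infinite.exists_subset_card_eq c (k + 1)
  obtain ⟨n, hn⟩ := sep t.finite_toSet
  obtain ⟨x, x1, x2⟩ : ∃ x ∈ C, n ≤ x.unpair.1 := by
    by_contra! c
    refine inf ((((Set.finite_Iio n).prod (Set.finite_Iio (2 ^ 2 ^ n))).image
      fun z => Nat.pair z.1 z.2).subset fun x hx => ⟨x.unpair, ⟨c x hx, ?_⟩, Nat.pair_unpair x⟩)
    exact (hA x (hC x hx)).1.1.trans_le (Nat.pow_le_pow_right two_pos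
      (Nat.pow_le_pow_right two_pos (c x hx).le))
  choose! j j1 j2 using fun X (hX : X ∈ t) => h1 x x1 X (t1 hX x x1)
  obtain ⟨X, hX, X', hX', ne, e⟩ := Finset.exists_ne_map_eq_of_card_lt_of_maps_to
    (s := t) (t := Finset.range k) (f := j) (by simp [t2])
    fun X hX => by simpa using (j1 X hX).trans_le (hk x x1)
  exact ne (hn X hX X' hX' fun i hi => by
    rw [j2 X hX i (hi.trans_le x2), j2 X' hX' i (hi.trans_le x2), e])

theorem cd_tb' (m g : ℕ) : Fn.cd (tb m) g = m % 2 ^ g := by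
  rw [← cd_tb (Nat.mod_lt m (Nat.two_pow_pos g))]
  exact cd_congr fun i hi => by simp [tb, hi]

@[fun_prop] theorem p_tb {α : Type} [Primcodable α] {m n : α → ℕ} (hm : Primrec m)
    (hn : Primrec n) : Primrec fun a => tb (m a) (n a) := tb_prim.comp hm hn

theorem tb_lt {u i : ℕ} (h : tb u i = true) : i < u :=
  Nat.lt_two_pow_self.trans_le (Nat.ge_two_pow_of_testBit h)

theorem enum (hA : Lg A) (hC : ∀ x ∈ C, A x = true) (inf : C.Infinite) :
    ∃ T : ℕ × ℕ × Bool → Bool, Primrec T ∧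
      ∀ x b, A x = b ↔ ∃ u, (∀ i, tb u i = true → i ∈ C) ∧ T (u, x, b) = true := by
  classical
  obtain ⟨n, hn⟩ := sep (few hA hC inf)
  have h0 : ∀ x ∈ C, fits A x := fun x hx => (hA x (hC x hx)).2
  refine ⟨fun z => PR.cd (∀ m < 2 ^ (n + z.2.1 + z.1 + 1), (m % 2 ^ n = Fn.cd A n ∧ ∀ i < z.1,
    tb z.1 i = true → tb i.unpair.2 (m % 2 ^ i.unpair.1) = true) → tb m z.2.1 = z.2.2),
    by fun_prop, fun x b => ⟨fun h => by_contra fun c => ?_, fun ⟨u, u1, u2⟩ => ?_⟩⟩
  · simp only [cd_true, not_exists, not_and, not_forall] at c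
    obtain ⟨Z, hZ⟩ := compact (fun s Z => ∀ i < s, (i < n → Z i = A i) ∧ (i ∈ C → fits Z i) ∧
      (i = x → Z i ≠ b)) (fun s Z Z' e h i hi => ⟨e i hi ▸ (h i hi).1, fun k =>
        ((h i hi).2.1 k).congr fun j hj => e j (hj.trans hi), e i hi ▸ (h i hi).2.2⟩) fun s => by
      obtain ⟨m, -, ⟨m1, m2⟩, m3⟩ := c (Fn.cd (fun i => decide (i ∈ C)) s) fun i hi => by
        have : i < s := lt_of_not_ge fun k => by
          rw [tb, Nat.testBit_lt_two_pow ((cd_lt _ s).trans_le
            (Nat.pow_le_pow_right two_pos k))] at hi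
          simp at hi
        simpa [tb_cd _ s i this] using hi
      refine ⟨tb m, fun u hu i hi => ⟨fun k => ?_, fun k => ?_, fun k => k ▸ m3⟩⟩
      · rw [← tb_cd A n i k, ← m1, ← cd_tb', tb_cd _ n i k]
      · have : tb (Fn.cd (fun i => decide (i ∈ C)) s) i = true := by
          simpa [tb_cd _ s i (hi.trans_le hu)] using k
        rw [fits, cd_tb']
        exact m2 i (tb_lt this) this
    obtain rfl := hn Z (fun i hi => (hZ _ i i.lt_succ_self).2.1 hi) A h0
      fun i hi => (hZ _ i i.lt_succ_self).1 hi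
    exact (hZ _ x x.lt_succ_self).2.2 rfl h
  · have := cd_true.1 u2 _ (cd_lt A (n + x + u + 1)) ⟨by
      rw [← cd_tb']; exact cd_congr fun i hi => tb_cd _ _ i (by omega), fun i hi k => by
        have := (h0 i (u1 i k)).congr (X' := tb (Fn.cd A (n + x + u + 1)))
          fun j hj => (tb_cd _ _ j (by simp only at hi; omega)).symm
        rwa [fits, cd_tb'] at this⟩
    rwa [tb_cd _ _ x (by omega)] at this

theorem red {B : ℕ → Bool} (hA : Lg A) (hB : ∀ x, B x = true → A x = true)
    (inf : {x | B x = true}.Infinite) : TuringReducible (orc A) (orc B) := by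
  obtain ⟨T, h1, h2⟩ := enum (C := {x | B x = true}) hA hB inf
  have := ci_self B
  exact CI.orc (CI.mk (R := fun x b => ∃ u, (∀ i < u, tb u i = true → B i = true) ∧
    T (u, x, b) = true) (by fun_prop) fun x b => (exists_congr fun u => and_congr_left fun _ =>
      ⟨fun h i k => h i (tb_lt k) k, fun h i _ => h i⟩).trans (h2 x b).symm)

instance re_count (α : Type) [Primcodable α] : Countable {p : α → Prop // REPred p} := by
  choose c hc using fun p : {p : α → Prop // REPred p} => re_code p.2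
  exact Function.Injective.countable (f := c) fun p q e =>
    Subtype.ext (funext fun a => propext (by rw [hc, hc, e]))

end Pool.Agent.H.MP_76bd4c_lc
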